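import Pool.Agent.H854.HF.Gen

set_option autoImplicit false
set_option maxHeartbeats 1000000

/-!
# Finite étale coordinates of the form `x i + z ^ w i`

Nagata's change of coordinates with exponents divisible by `p`, by means of valuations.
-/

namespace Pool.Agent.H854.HF

open Pool.Agent.Y135 Pool.Agent.H854.FE

/-- The weight of an exponent. -/
def wt (p M : ℕ) {n : ℕ} (a : Fin (n + 1) → ℕ) : ℕ :=
  a 0 + ∑ i : Fin n, a i.succ * (p * M ^ ((i : ℕ) + 1))

theorem wt_inj {p M n : ℕ} (hp : 0 < p) {a b : Fin (n + 1) → ℕ} (ha : ∀ i, p * a i < M)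
    (hb : ∀ i, p * b i < M) (h : wt p M a = wt p M b) : a = b := by
  have hle : ∀ m : ℕ, m ≤ p * m := fun m => Nat.le_mul_of_pos_left m hp
  let c : (Fin (n + 1) → ℕ) → Fin (n + 1) → ℕ := fun a => Fin.cons (a 0) (fun i => p * a i.succ)
  have hc : ∀ a : Fin (n + 1) → ℕ, (∀ i, p * a i < M) → ∀ i, c a i < M := by
    intro a ha i
    refine Fin.cases ?_ (fun j => ?_) i
    · exact (hle _).trans_lt (ha 0)
    · exact ha j.succ
  have hw : ∀ a : Fin (n + 1) → ℕ, wt p M a = ∑ i, c a i * M ^ (i : ℕ) := by
    intro a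
    rw [Fin.sum_univ_succ]
    simp only [c, wt, Fin.cons_zero, Fin.cons_succ, Fin.val_zero, pow_zero, mul_one, Fin.val_succ]
    congr 1
    refine Finset.sum_congr rfl fun i _ => ?_
    ring
  have h1 : finFunctionFinEquiv (fun i => (⟨c a i, hc a ha i⟩ : Fin M)) =
      finFunctionFinEquiv (fun i => (⟨c b i, hc b hb i⟩ : Fin M)) := by
    apply Fin.ext
    rw [finFunctionFinEquiv_apply, finFunctionFinEquiv_apply]
    change ∑ i, c a i * M ^ (i : ℕ) = ∑ i, c b i * M ^ (i : ℕ)
    rw [← hw, ← hw, h]
  have h2 := finFunctionFinEquiv.injective h1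
  have h3 : ∀ i, c a i = c b i := fun i => congrArg Fin.val (congrFun h2 i)
  funext i
  refine Fin.cases ?_ (fun j => ?_) i
  · exact h3 0
  · exact Nat.eq_of_mul_eq_mul_left hp (h3 j.succ)

theorem mem_valuationSubring (k : Type) [Field k] (p : ℕ) (hp : 0 < p) {L : Type} [Field L]
    [Algebra k L] {n : ℕ} (x : Fin n → L) (z : L) (f : MvPolynomial (Fin (n + 1)) k) (hf : f ≠ 0)
    (hfz : MvPolynomial.aeval (Fin.cons z x : Fin (n + 1) → L) f = 0) (M : ℕ)
    (hM : ∀ d ∈ f.support, ∀ i, p * d i < M) (V : ValuationSubring L)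
    (hk : ∀ c : k, algebraMap k L c ∈ V)
    (ht : ∀ i, x i + z ^ (p * M ^ ((i : ℕ) + 1)) ∈ V) : z ∈ V := by
  classical
  by_contra hz
  obtain ⟨d₀, hd₀⟩ := MvPolynomial.support_nonempty.mpr hf
  have hM0 : 0 < M := (Nat.zero_le _).trans_lt (hM d₀ hd₀ 0)
  have hv : 1 < V.valuation z := by
    rw [← not_le, V.valuation_le_one_iff]
    exact hz
  have hx : ∀ i, V.valuation (x i) = V.valuation z ^ (p * M ^ ((i : ℕ) + 1)) := by
    intro i
    have h1 : x i = (x i + z ^ (p * M ^ ((i : ℕ) + 1))) - z ^ (p * M ^ ((i : ℕ) + 1)) := by ring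
    have h2 : V.valuation (x i + z ^ (p * M ^ ((i : ℕ) + 1))) <
        V.valuation (z ^ (p * M ^ ((i : ℕ) + 1))) := by
      refine lt_of_le_of_lt ((V.valuation_le_one_iff _).mpr (ht i)) ?_
      rw [map_pow]
      exact one_lt_pow₀ hv (by positivity)
    rw [h1, V.valuation.map_sub_eq_of_lt_right h2, map_pow]
  have hterm : ∀ d ∈ f.support, V.valuation (algebraMap k L (f.coeff d) *
      ∏ i, (Fin.cons z x : Fin (n + 1) → L) i ^ d i) = V.valuation z ^ wt p M d := by
    intro d hd
    have hc : f.coeff d ≠ 0 := MvPolynomial.mem_support_iff.mp hd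
    have h3 : V.valuation (algebraMap k L (f.coeff d)) = 1 := by
      refine le_antisymm ((V.valuation_le_one_iff _).mpr (hk _)) ?_
      have h4 := (V.valuation_le_one_iff _).mpr (hk (f.coeff d)⁻¹)
      rw [map_inv₀, map_inv₀] at h4
      have h5 : V.valuation (algebraMap k L (f.coeff d)) ≠ 0 := by
        rw [ne_eq, map_eq_zero, map_eq_zero]
        exact hc
      exact (inv_le_one₀ (zero_lt_iff.mpr h5)).mp h4
    rw [map_mul, h3, one_mul, Fin.prod_univ_succ, map_mul, map_prod, wt, pow_add]
    simp only [Fin.cons_zero, Fin.cons_succ, map_pow]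
    rw [← Finset.prod_pow_eq_pow_sum]
    congr 1
    refine Finset.prod_congr rfl fun i _ => ?_
    rw [hx i, ← pow_mul, mul_comm]
  obtain ⟨d, hd, hdmax⟩ := f.support.exists_max_image (fun d => wt p M d) ⟨d₀, hd₀⟩
  have hlt : ∀ e ∈ f.support \ {d}, V.valuation (algebraMap k L (f.coeff e) *
      ∏ i, (Fin.cons z x : Fin (n + 1) → L) i ^ e i) < V.valuation (algebraMap k L (f.coeff d) *
      ∏ i, (Fin.cons z x : Fin (n + 1) → L) i ^ d i) := by
    intro e he
    rw [Finset.mem_sdiff, Finset.mem_singleton] at he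
    rw [hterm e he.1, hterm d hd]
    refine pow_lt_pow_right₀ hv (lt_of_le_of_ne (hdmax e he.1) fun h => he.2 ?_)
    exact DFunLike.coe_injective (wt_inj hp (hM e he.1) (hM d hd) h)
  have hsum := V.valuation.map_sum_eq_of_lt hd hlt
  rw [MvPolynomial.aeval_def, MvPolynomial.eval₂_eq'] at hfz
  rw [hfz, map_zero, hterm d hd] at hsum
  exact (pow_ne_zero _ (zero_lt_one.trans hv).ne') hsum.symm

/-- Finite étale coordinates such that the generator remains a generator. -/
theorem exists_mono_coords (k : Type) [Field k] (p : ℕ) [Fact p.Prime] [CharP k p] {n : ℕ}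
    {B : Type} [CommRing B] [IsDomain B] [Algebra k B] (x : Fin n → B)
    (hx : (MvPolynomial.aeval x : MvPolynomial (Fin n) k →ₐ[k] B).toRingHom.Etale) (z : B)
    (hz : Algebra.adjoin k (insert z (Set.range x)) = ⊤) :
    ∃ t : Fin n → B,
      (MvPolynomial.aeval t : MvPolynomial (Fin n) k →ₐ[k] B).toRingHom.FormallyEtale ∧
      (MvPolynomial.aeval t : MvPolynomial (Fin n) k →ₐ[k] B).toRingHom.IsIntegral ∧
      Algebra.FiniteType k B ∧ Algebra.adjoin k (insert z (Set.range t)) = ⊤ := by
  obtain ⟨htr, hft⟩ := RF.trdeg_of_etale k p x hx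
  have hni : ¬ AlgebraicIndependent k (Fin.cons z x : Fin (n + 1) → B) := by
    intro h
    have h1 := h.cardinalMk_le_trdeg
    rw [htr, Cardinal.mk_fin] at h1
    have h2 : n + 1 ≤ n := by exact_mod_cast h1
    omega
  rw [algebraicIndependent_iff] at hni
  push Not at hni
  obtain ⟨f, hfz, hf⟩ := hni
  obtain ⟨M, hM⟩ : ∃ M : ℕ, ∀ d ∈ f.support, ∀ i, p * d i < M := by
    refine ⟨p * f.totalDegree + 1, fun d hd i => ?_⟩
    have h1 : d i ≤ f.totalDegree :=
      (Finsupp.le_degree i d).trans (MvPolynomial.le_totalDegree hd)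
    exact Nat.lt_succ_of_le (Nat.mul_le_mul_left p h1)
  let t : Fin n → B := fun i => x i + z ^ (p * M ^ ((i : ℕ) + 1))
  let L := FractionRing B
  have hinj : Function.Injective (algebraMap B L) := IsFractionRing.injective B L
  let χ : MvPolynomial (Fin n) k →ₐ[k] L := (IsScalarTower.toAlgHom k B L).comp
    (MvPolynomial.aeval t)
  have hetale : (MvPolynomial.aeval t :
      MvPolynomial (Fin n) k →ₐ[k] B).toRingHom.FormallyEtale := by
    have h1 := etale_shift k p x (fun i => z ^ M ^ ((i : ℕ) + 1)) 1 one_pos hx.formallyEtale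
    have h2 : (fun i => x i + (z ^ M ^ ((i : ℕ) + 1)) ^ p ^ 1) = t := by
      funext i
      simp only [t, pow_one, ← pow_mul]
      rw [mul_comm]
    rwa [h2] at h1
  have key : ∀ b : B, ∃ P : Polynomial (MvPolynomial (Fin n) k), P.Monic ∧
      Polynomial.eval₂ χ.toRingHom (algebraMap B L b) P = 0 := by
    let := χ.toRingHom.toAlgebra
    let R : Subring L := (integralClosure (MvPolynomial (Fin n) k) L).toSubring
    have hRt : ∀ c, χ c ∈ R := fun c =>
      (isIntegral_algebraMap : IsIntegral (MvPolynomial (Fin n) k)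
        (algebraMap (MvPolynomial (Fin n) k) L c))
    have hRk : ∀ c : k, algebraMap k L c ∈ R := by
      intro c
      have h1 := hRt (MvPolynomial.C c)
      have h2 : χ (MvPolynomial.C c) = algebraMap k L c := χ.commutes c
      rwa [h2] at h1
    have hRti : ∀ i, algebraMap B L (t i) ∈ R := by
      intro i
      have h1 := hRt (MvPolynomial.X i)
      have h2 : χ (MvPolynomial.X i) = algebraMap B L (t i) := by
        simp [χ]
      rwa [h2] at h1
    have hRz : algebraMap B L z ∈ R := by
      by_contra hn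
      obtain ⟨V, hRV, hnV⟩ := R.exists_le_valuationSubring_of_isIntegrallyClosedIn hn
      refine hnV (mem_valuationSubring k p (Fact.out : p.Prime).pos (fun i => algebraMap B L (x i))
        (algebraMap B L z) f hf ?_ M hM V (fun c => hRV (hRk c)) fun i => ?_)
      · have h1 : (Fin.cons (algebraMap B L z) (fun i => algebraMap B L (x i)) :
            Fin (n + 1) → L) = fun j => algebraMap B L ((Fin.cons z x : Fin (n + 1) → B) j) := by
          funext j
          refine Fin.cases ?_ (fun i => ?_) j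
          · rfl
          · rfl
        rw [h1]
        have h2 := MvPolynomial.aeval_algebraMap_apply L (Fin.cons z x : Fin (n + 1) → B) f
        have h3 : (MvPolynomial.aeval (fun j => algebraMap B L ((Fin.cons z x :
            Fin (n + 1) → B) j))) f = algebraMap B L
            (MvPolynomial.aeval (Fin.cons z x : Fin (n + 1) → B) f) := h2
        rw [h3, hfz, map_zero]
      · have h1 := hRV (hRti i)
        simpa [t] using h1
    have hRx : ∀ i, algebraMap B L (x i) ∈ R := by
      intro i
      have h1 : algebraMap B L (x i) = algebraMap B L (t i) -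
          algebraMap B L z ^ (p * M ^ ((i : ℕ) + 1)) := by
        simp [t]
      rw [h1]
      exact R.sub_mem (hRti i) (R.pow_mem hRz _)
    intro b
    have hb : b ∈ Algebra.adjoin k (insert z (Set.range x)) := hz ▸ trivial
    have hbR : algebraMap B L b ∈ R := by
      induction hb using Algebra.adjoin_induction with
      | mem y hy =>
        rcases Set.mem_insert_iff.mp hy with rfl | ⟨i, rfl⟩
        · exact hRz
        · exact hRx i
      | algebraMap r =>
        rw [← IsScalarTower.algebraMap_apply]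
        exact hRk r
      | add y y' _ _ hy hy' =>
        rw [map_add]
        exact R.add_mem hy hy'
      | mul y y' _ _ hy hy' =>
        rw [map_mul]
        exact R.mul_mem hy hy'
    exact hbR
  refine ⟨t, hetale, fun b => ?_, hft, ?_⟩
  · obtain ⟨P, hP, hPb⟩ := key b
    refine ⟨P, hP, hinj ?_⟩
    rw [Polynomial.hom_eval₂, map_zero]
    exact hPb
  · let S := Algebra.adjoin k (insert z (Set.range t))
    have hzS : z ∈ S := Algebra.subset_adjoin (Set.mem_insert _ _)
    have htS : ∀ i, t i ∈ S := fun i =>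
      Algebra.subset_adjoin (Set.mem_insert_of_mem _ ⟨i, rfl⟩)
    rw [eq_top_iff, ← hz, Algebra.adjoin_le_iff]
    rintro y hy
    rcases Set.mem_insert_iff.mp hy with rfl | ⟨i, rfl⟩
    · exact hzS
    · have h1 : x i = t i - z ^ (p * M ^ ((i : ℕ) + 1)) := by simp [t]
      change x i ∈ S
      rw [h1]
      exact sub_mem (htS i) (pow_mem hzS _)

end Pool.Agent.H854.HF
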