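import Pool.Agent.H854.FE.Facts

set_option autoImplicit false
set_option maxHeartbeats 1000000

/-!
# The hypersurfaces `z + g(x,z) ^ p = 0`, and the Tate conjecture over finite fields
-/

open CategoryTheory Limits AlgebraicGeometry

namespace Pool.Agent.H854.HF

open Pool.Agent.H854.FE

/-- The hypersurface `F(x_1, ..., x_n, z) = 0` in the affine space of dimension `n + 1` over `k`. -/
noncomputable abbrev hyp (k : Type) [Field k] (n : ℕ)
    (F : Polynomial (MvPolynomial (Fin n) k)) : Scheme.{0} :=
  Spec (.of (AdjoinRoot F))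

/-- The structure morphism of the hypersurface. -/
noncomputable abbrev hypStr (k : Type) [Field k] (n : ℕ)
    (F : Polynomial (MvPolynomial (Fin n) k)) : hyp k n F ⟶ Spec (.of k) :=
  Spec.map (CommRingCat.ofHom (algebraMap k (AdjoinRoot F)))

/-- The irreducible polynomial `P(x,z)` over `k[x_1, ..., x_n]`, monic in `z`, divides
`z + g(x,z) ^ p` for a polynomial `g`, monic in `z`. In characteristic `p` the hypersurface `P = 0`
is then an irreducible component of the smooth hypersurface `z + g(x,z) ^ p = 0`. -/
structure IsComponent (p : ℕ) {k : Type} [Field k] {n : ℕ}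
    (P : Polynomial (MvPolynomial (Fin n) k)) : Prop where
  monic : P.Monic
  irreducible : Irreducible P
  dvd : ∃ g : Polynomial (MvPolynomial (Fin n) k), g.Monic ∧ P ∣ Polynomial.X + g ^ p

/-- The variety `f : X ⟶ Spec k` has a non-empty open subset that is isomorphic over `k` to the
hypersurface `P = 0`. -/
def HasOpenSubset {k : Type} [Field k] {n : ℕ} {X : Scheme.{0}} (f : X ⟶ Spec (.of k))
    (P : Polynomial (MvPolynomial (Fin n) k)) : Prop :=
  ∃ (V : X.Opens) (e : (V : Scheme.{0}) ≅ hyp k n P), Nonempty V ∧
    e.hom ≫ hypStr k n P = V.ι ≫ f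

/-- The Tate classes in `H^{2i}` of the irreducible components of the hypersurfaces
`z + g(x_1, ..., x_n, z) ^ p = 0` over the field `k` vanish on non-empty open subsets. -/
def HypVanishing (p ℓ : ℕ) [Fact ℓ.Prime] (k : Type) [Field k] (n i : ℕ) : Prop :=
  ∀ P : Polynomial (MvPolynomial (Fin n) k), IsComponent p P →
    GenericVanishing ℓ (hypStr k n P) i

section facts
variable (p ℓ : ℕ) [Fact p.Prime] [Fact ℓ.Prime]

/-- Restriction of the field of constants: a variety `X` over a finite field `K` is also a variety
over the prime field, and its cohomology over the prime field is the induced representation. -/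
def ShapiroThm : Prop :=
  ∀ (K : Type) [Field K] [CharP K p] (X : Scheme.{0}) (f : X ⟶ Spec (.of K)) (n i : ℕ)
    [IsVar n f], Finite K → ∃ (X' : Scheme.{0}) (f' : X' ⟶ Spec (.of (ZMod p))),
      IsVar n f' ∧ Dominates ℓ f f' i

/-- Artin vanishing: `H^{2i}(X ⊗ K̄, ℚ̄_ℓ)` is zero for affine varieties of dimension less than
`2i`. -/
def ArtinThm : Prop :=
  ∀ (X : Scheme.{0}) (f : X ⟶ Spec (.of (ZMod p))) (n i : ℕ) [IsVar n f], IsAffine X →
    n < 2 * i → ∀ v : HH ℓ f i, v = 0

/-- Published theorems on the `ℓ`-adic cohomology of smooth varieties over finite fields of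
characteristic `p ≠ ℓ`. -/
structure FiniteFieldFacts : Prop extends BasicFacts p ℓ (fun K _ => Finite K) where
  shapiro : ShapiroThm p ℓ
  artin : ArtinThm p ℓ

/-- The conjecture `T^i` and the semisimplicity of the eigenvalue one in codimension `i` for smooth
varieties of dimension `n` over finite fields of characteristic `p`. -/
def TateFinite (i n : ℕ) : Prop :=
  ∀ (K : Type) [Field K] [CharP K p] (X : Scheme.{0}) (f : X ⟶ Spec (.of K)) [IsVar n f],
    Finite K → TateConj ℓ f i ∧ SemisimpleAt ℓ f i

end facts

end Pool.Agent.H854.HF
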