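import Pool.Agent.H854.HF.Main

set_option autoImplicit false
set_option maxHeartbeats 1000000

/-!
# Divisors
-/

open CategoryTheory Limits AlgebraicGeometry

namespace Pool.Agent.H854.HF

open Pool.Agent.H854.FE

section
variable {p ℓ : ℕ} [Fact p.Prime] [Fact ℓ.Prime]

/-- In codimension one the conjecture says that the Tate classes vanish on non-empty open
subsets. -/
theorem tateConj_one_iff {K : Type} [Field K] {n : ℕ} {X : Scheme.{0}} (f : X ⟶ Spec (.of K))
    [hf : IsVar n f] : TateConj ℓ f 1 ↔ GenericVanishing ℓ f 1 := by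
  have hint := hf.integral
  constructor
  · intro h v hv
    obtain ⟨W, hW1, hW2⟩ := h v hv
    exact ⟨W, nonempty_of_codim le_rfl hW1, hW2⟩
  · intro h v hv
    obtain ⟨W, hW1, hW2⟩ := h v hv
    exact ⟨W, one_le_coheight hW1, hW2⟩

/-- The conjecture `T^1` for all smooth varieties of dimension `n` over a field of characteristic
`p` is equivalent to `T^1` for the hypersurfaces. -/
theorem divisors_iff (k : Type) [Field k] [CharP k p] (n : ℕ) :
    (∀ P : Polynomial (MvPolynomial (Fin n) k), IsComponent p P →
      TateConj ℓ (hypStr k n P) 1) ↔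
      ∀ (X : Scheme.{0}) (f : X ⟶ Spec (.of k)) [IsVar n f], TateConj ℓ f 1 := by
  constructor
  · intro h X f hf
    rw [tateConj_one_iff (n := n)]
    refine vanishing_of_hyp (n := n) (fun P hP => ?_) f
    have := hP.isVar
    exact (tateConj_one_iff (n := n) (hypStr k n P)).mp (h P hP)
  · intro h P hP
    have := hP.isVar
    exact h (hyp k n P) (hypStr k n P)

theorem isFG_zmod (p : ℕ) [Fact p.Prime] : IsFG (ZMod p) := by
  refine ⟨∅, ?_⟩
  rw [eq_top_iff]
  intro x _
  rw [← ZMod.natCast_zmod_val x]
  exact natCast_mem _ _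

end

end Pool.Agent.H854.HF
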