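import Pool.Agent.H854.HF.Main

set_option autoImplicit false
set_option maxHeartbeats 1000000

/-!
# The Tate conjecture over finite fields, dimension by dimension
-/

open CategoryTheory Limits AlgebraicGeometry

namespace Pool.Agent.H854.HF

open Pool.Agent.H854.FE

/-- The geometric Galois group of a finite field is trivial. -/
theorem geomGal_finite (K : Type) [Field K] [Finite K] (σ : AbsGal K) (hσ : σ ∈ geomGal K) :
    σ = 1 := by
  have h1 : ∀ x : AlgebraicClosure K, σ.aut x = x := by
    intro x
    rcases eq_or_ne x 0 with rfl | hx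
    · exact map_zero _
    have hint : IsIntegral K x := Algebra.IsIntegral.isIntegral x
    have hfd : FiniteDimensional K (IntermediateField.adjoin K {x}) :=
      IntermediateField.adjoin.finiteDimensional hint
    have hfin : Finite (IntermediateField.adjoin K {x}) := Module.finite_of_finite K
    let y : IntermediateField.adjoin K {x} := ⟨x, IntermediateField.mem_adjoin_simple_self K x⟩
    have hy : y ≠ 0 := fun h => hx (congrArg Subtype.val h)
    let u : (IntermediateField.adjoin K {x})ˣ := Units.mk0 y hy
    have hu : u ^ Nat.card (IntermediateField.adjoin K {x})ˣ = 1 := pow_card_eq_one'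
    have hx1 : x ^ Nat.card (IntermediateField.adjoin K {x})ˣ = 1 := by
      have h2 : y ^ Nat.card (IntermediateField.adjoin K {x})ˣ = 1 := by
        have h3 := congrArg Units.val hu
        rw [Units.val_pow_eq_pow_val, Units.val_one] at h3
        exact h3
      exact congrArg Subtype.val h2
    exact hσ x _ Nat.card_pos hx1
  have h2 : σ.aut = AlgEquiv.refl := AlgEquiv.ext h1
  exact h2

section main
variable {p ℓ : ℕ} [Fact p.Prime] [Fact ℓ.Prime]

theorem li_fin (F : FiniteFieldFacts p ℓ) {i : ℕ} (hi : 1 ≤ i) (n : ℕ) {K : Type} [Field K]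
    [CharP K p] (hK : Finite K)
    (hT : ∀ (X : Scheme.{0}) (f : X ⟶ Spec (.of K)) [IsVar n f], TateConj ℓ f i)
    {X : Scheme.{0}} (f : X ⟶ Spec (.of K)) [hf : IsVar n f] : LI (tw ℓ f i) := by
  have hfin := F.finite K X f n i hK
  have hsub : Subsingleton (geomGal K) :=
    ⟨fun a b => Subtype.ext ((geomGal_finite _ a.1 a.2).trans (geomGal_finite _ b.1 b.2).symm)⟩
  have hne : NeZero (Nat.card (geomGal K) : PadicAlgCl ℓ) := by
    rw [Nat.card_of_subsingleton (1 : geomGal K), Nat.cast_one]
    exact ⟨one_ne_zero⟩
  exact lift_rep (tw ℓ f i) (geomGal K) (geomGal_normal _) (geomGal_comm _)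
    inferInstance (fun v hv => socle F.toBasicFacts hi n hT f hK v hv)

/-- The Tate conjecture for the smooth varieties of dimension at most `n` over the finite fields of
characteristic `p` is equivalent to the generic vanishing of the Tate classes of the hypersurfaces
`z + g(x_1, ..., x_m, z) ^ p = 0` over the prime field, `m ≤ n`. -/
theorem main_fin (F : FiniteFieldFacts p ℓ) (n : ℕ) :
    (∀ m, m ≤ n → ∀ i, 1 ≤ i → 2 * i ≤ m → HypVanishing p ℓ (ZMod p) m i) ↔
      ∀ m, m ≤ n → ∀ i, 1 ≤ i → TateFinite p ℓ i m := by
  constructor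
  · intro h
    have hGV : ∀ m, m ≤ n → ∀ i, 1 ≤ i → HypVanishing p ℓ (ZMod p) m i := by
      intro m hm i hi
      rcases le_or_gt (2 * i) m with h1 | h1
      · exact h m hm i hi h1
      · intro P hP v hv
        have := hP.isVar
        refine ⟨⊤, ?_, ?_⟩
        · have := isIntegral_hyp (ZMod p) m hP.irreducible
          obtain ⟨x⟩ : Nonempty (hyp (ZMod p) m P) := inferInstance
          exact ⟨⟨x, trivial⟩⟩
        · rw [F.artin _ (hypStr (ZMod p) m P) m i inferInstance h1 v, map_zero]
    have key : ∀ i, 1 ≤ i → ∀ m, m ≤ n → ∀ (K : Type) [Field K] [CharP K p] (X : Scheme.{0})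
        (f : X ⟶ Spec (.of K)) [IsVar m f], Finite K → TateConj ℓ f i := by
      intro i
      induction i with
      | zero => intro h0; omega
      | succ i ih =>
        intro _ m hm K _ _ X f _ hK v hv
        obtain ⟨X', f', hX', e, he1, he2⟩ := F.shapiro K X f m (i + 1) hK
        refine he2 v hv ?_
        have hv' := he1 v hv
        have hint := hX'.integral
        obtain ⟨V, hVn, hV1⟩ := vanishing_of_hyp (hGV m hm (i + 1) (by omega)) f' _ hv'
        rcases Nat.eq_zero_or_pos i with hi | hi
        · subst hi
          exact ⟨V, one_le_coheight hVn, hV1⟩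
        exact gysin_step F.toBasicFacts i m (fun K' _ _ D d n' _ hn' _ hK' =>
          ⟨li_fin F hi n' hK' (fun X f _ => ih hi n' (by omega) K' X f hK') d,
            ih hi n' (by omega) K' D d hK'⟩) (inferInstance : Finite (ZMod p)) f' V _ hv' hV1
    intro m hm i hi K _ _ X f _ hK
    exact ⟨key i hi m hm K X f hK,
      socle F.toBasicFacts hi m (fun X f _ => key i hi m hm K X f hK) f hK⟩
  · intro h m hm i hi _ P hP v hv
    have := hP.isVar
    have := isIntegral_hyp (ZMod p) m hP.irreducible
    obtain ⟨W, hW1, hW2⟩ :=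
      (h m hm i hi (ZMod p) (hyp (ZMod p) m P) (hypStr (ZMod p) m P) inferInstance).1 v hv
    exact ⟨W, nonempty_of_codim hi hW1, hW2⟩

end main

end Pool.Agent.H854.HF
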