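import Pool.Agent.H854.HF.Coord

set_option autoImplicit false
set_option maxHeartbeats 1000000

/-!
# Varieties in characteristic `p` as hypersurfaces `z + g(x,z) ^ p = 0`
-/

open Polynomial

namespace Pool.Agent.H854.HF

open Pool.Agent.H854.FE

theorem polys_of_mono (k : Type) [Field k] (p : ℕ) [Fact p.Prime] [CharP k p] {n : ℕ} {C : Type}
    [CommRing C] [IsDomain C] [Algebra k C] (t : Fin n → C) (z : C)
    (ht1 : (MvPolynomial.aeval t : MvPolynomial (Fin n) k →ₐ[k] C).toRingHom.FormallyEtale)
    (ht2 : (MvPolynomial.aeval t : MvPolynomial (Fin n) k →ₐ[k] C).toRingHom.IsIntegral)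
    (ht3 : Algebra.FiniteType k C) (ht4 : Algebra.adjoin k (insert z (Set.range t)) = ⊤) :
    ∃ g P : (MvPolynomial (Fin n) k)[X], g.Monic ∧ P.Monic ∧ Irreducible P ∧ P ∣ X + g ^ p ∧
      Nonempty (AdjoinRoot P ≃ₐ[k] C) := by
  let A := MvPolynomial (Fin n) k
  let a1 : Algebra A C := (MvPolynomial.aeval t : A →ₐ[k] C).toRingHom.toAlgebra
  have hs : IsScalarTower k A C :=
    IsScalarTower.of_algebraMap_eq' (MvPolynomial.aeval t).comp_algebraMap.symm
  have hfet : Algebra.FormallyEtale A C := ht1
  have hft : Algebra.FiniteType A C := Algebra.FiniteType.of_restrictScalars_finiteType k _ _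
  have het : Algebra.Etale A C :=
    { formallyEtale := hfet
      finitePresentation := Algebra.FinitePresentation.of_finiteType.mp hft }
  have hint : Algebra.IsIntegral A C := ⟨ht2⟩
  have hfin : Module.Finite A C := Algebra.IsIntegral.finite
  have hinj : Function.Injective (algebraMap A C) := by
    rw [injective_iff_map_eq_zero]
    intro a ha
    by_contra h0
    have h1 : a • (1 : C) = 0 := by rw [Algebra.smul_def, ha, zero_mul]
    exact one_ne_zero ((smul_eq_zero.mp h1).resolve_left h0)
  have hfs : FaithfulSMul A C := (faithfulSMul_iff_algebraMap_injective A C).mpr hinj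
  have hcA : CharP A p := charP_of_injective_algebraMap (MvPolynomial.C_injective (Fin n) k) p
  have hcC : CharP C p := charP_of_injective_algebraMap hinj p
  have hz : Algebra.adjoin A {z} = ⊤ := by
    rw [eq_top_iff]
    intro c hc'
    have hc : c ∈ Algebra.adjoin k (insert z (Set.range t)) := ht4 ▸ trivial
    clear hc'
    induction hc using Algebra.adjoin_induction with
    | mem y hy =>
      rcases Set.mem_insert_iff.mp hy with rfl | ⟨i, rfl⟩
      · exact Algebra.subset_adjoin rfl
      · have h1 : t i = algebraMap A C (MvPolynomial.X i) := by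
          change t i = MvPolynomial.aeval t (MvPolynomial.X i)
          rw [MvPolynomial.aeval_X]
        rw [h1]
        exact Subalgebra.algebraMap_mem _ _
    | algebraMap r =>
      rw [IsScalarTower.algebraMap_apply k A C]
      exact Subalgebra.algebraMap_mem _ _
    | add y y' _ _ hy hy' => exact add_mem hy hy'
    | mul y y' _ _ hy hy' => exact mul_mem hy hy'
  obtain ⟨u, g, hu, hg, hug⟩ := exists_poly p z hz
  have hui : IsIntegral A u := Algebra.IsIntegral.isIntegral u
  refine ⟨g, minpoly A u, hg, minpoly.monic hui, minpoly.irreducible hui,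
    minpoly.isIntegrallyClosed_dvd hui hug, ⟨?_⟩⟩
  exact (((minpoly.equivAdjoin hui).trans (Subalgebra.equivOfEq _ _ hu)).trans
    Subalgebra.topEquiv).restrictScalars k

/-- A domain that is étale over a polynomial ring over a field of characteristic `p` has a
localization of the form `k[x][z]/(P)`, where the irreducible monic polynomial `P` in `z` divides
`z + g(x,z) ^ p` for a polynomial `g`, monic in `z`. -/
theorem exists_polys (k : Type) [Field k] (p : ℕ) [Fact p.Prime] [CharP k p] {n : ℕ} {B : Type}
    [CommRing B] [IsDomain B] [Algebra k B]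
    (g : MvPolynomial (Fin n) k →ₐ[k] B) (hg : g.toRingHom.Etale) :
    ∃ (h : B) (g P : (MvPolynomial (Fin n) k)[X]), h ≠ 0 ∧ g.Monic ∧ P.Monic ∧ Irreducible P ∧
      P ∣ X + g ^ p ∧ Nonempty (AdjoinRoot P ≃ₐ[k] Localization.Away h) := by
  obtain ⟨g', hg1, hg2⟩ := exists_finite_etale k p g hg
  let A := MvPolynomial (Fin n) k
  let a1 : Algebra A B := g'.toRingHom.toAlgebra
  have hs : IsScalarTower k A B := IsScalarTower.of_algebraMap_eq' g'.comp_algebraMap.symm
  have hfin : Module.Finite A B := hg2
  have het : Algebra.Etale A B := hg1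
  have hinj : Function.Injective (algebraMap A B) := by
    rw [injective_iff_map_eq_zero]
    intro a ha
    by_contra h0
    have h1 : a • (1 : B) = 0 := by rw [Algebra.smul_def, ha, zero_mul]
    exact one_ne_zero ((smul_eq_zero.mp h1).resolve_left h0)
  obtain ⟨h, z, h0, hz⟩ := exists_generator A B
  let b := algebraMap A B h
  have hb0 : b ≠ 0 := fun hb => h0 (hinj (by rw [← map_zero (algebraMap A B)] at hb; exact hb))
  let C := Localization.Away b
  have hCdom : IsDomain C :=
    IsLocalization.isDomain_localization (powers_le_nonZeroDivisors_of_noZeroDivisors hb0)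
  have hs2 : IsScalarTower k A C := by
    refine IsScalarTower.of_algebraMap_eq fun c => ?_
    rw [IsScalarTower.algebraMap_apply A B C, ← IsScalarTower.algebraMap_apply k A B,
      ← IsScalarTower.algebraMap_apply k B C]
  have hetC : Algebra.Etale B C := Algebra.Etale.of_isLocalizationAway b
  have hetAC : Algebra.Etale A C := Algebra.Etale.comp A B C
  let x : Fin n → C := fun i => algebraMap A C (MvPolynomial.X i)
  have hx : (MvPolynomial.aeval x : A →ₐ[k] C) = IsScalarTower.toAlgHom k A C := by
    ext i
    rw [MvPolynomial.aeval_X]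
    rfl
  have hxe : (MvPolynomial.aeval x : A →ₐ[k] C).toRingHom.Etale := by
    rw [hx]
    exact (RingHom.etale_algebraMap).mpr hetAC
  have hgen : Algebra.adjoin k (insert z (Set.range x)) = ⊤ := by
    have hA : ∀ a : A, algebraMap A C a ∈ Algebra.adjoin k (insert z (Set.range x)) := by
      intro a
      have h1 : algebraMap A C a = MvPolynomial.aeval x a := by
        rw [hx]
        rfl
      rw [h1]
      have h2 : MvPolynomial.aeval x a ∈ Algebra.adjoin k (Set.range x) := by
        rw [← MvPolynomial.aeval_range]
        exact ⟨a, rfl⟩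
      exact Algebra.adjoin_mono (Set.subset_insert _ _) h2
    rw [eq_top_iff]
    intro c hc'
    have hc : c ∈ Algebra.adjoin A {z} := hz ▸ trivial
    clear hc'
    induction hc using Algebra.adjoin_induction with
    | mem y hy =>
      rw [Set.mem_singleton_iff] at hy
      subst hy
      exact Algebra.subset_adjoin (Set.mem_insert _ _)
    | algebraMap r => exact hA r
    | add y y' _ _ hy hy' => exact add_mem hy hy'
    | mul y y' _ _ hy hy' => exact mul_mem hy hy'
  obtain ⟨t, ht1, ht2, ht3, ht4⟩ := exists_mono_coords k p x hxe z hgen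
  obtain ⟨g₀, P, h1, h2, h3, h4, h5⟩ := polys_of_mono k p t z ht1 ht2 ht3 ht4
  exact ⟨b, g₀, P, hb0, h1, h2, h3, h4, h5⟩

end Pool.Agent.H854.HF
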