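import Pool.Agent.H854.FE.Alg

set_option autoImplicit false
set_option maxHeartbeats 1000000

/-!
# Unramified algebras with one generator in characteristic `p`

If `B` is finite and unramified over `A` and generated by `z`, then it is generated by `u = z ^ p`, and
`u + g(u) ^ p = 0` for a monic polynomial `g` over `A`.
-/

open TensorProduct Polynomial

namespace Pool.Agent.H854.HF

theorem pow_mem_adjoin (p : ℕ) [Fact p.Prime] {A B : Type} [CommRing A] [CommRing B] [Algebra A B]
    [CharP B p] (z : B) (hz : Algebra.adjoin A {z} = ⊤) (b : B) :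
    b ^ p ∈ Algebra.adjoin A {z ^ p} := by
  have hb : b ∈ Algebra.adjoin A {z} := hz ▸ trivial
  induction hb using Algebra.adjoin_induction with
  | mem x hx =>
    rw [Set.mem_singleton_iff] at hx
    subst hx
    exact Algebra.subset_adjoin rfl
  | algebraMap r =>
    rw [← map_pow]
    exact Subalgebra.algebraMap_mem _ _
  | add x y _ _ hx hy =>
    rw [add_pow_char]
    exact add_mem hx hy
  | mul x y _ _ hx hy =>
    rw [mul_pow]
    exact mul_mem hx hy

theorem adjoin_pow (p : ℕ) [Fact p.Prime] {A B : Type} [CommRing A] [CommRing B] [Algebra A B]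
    [CharP B p] [Module.Finite A B] [Algebra.FormallyUnramified A B] (z : B)
    (hz : Algebra.adjoin A {z} = ⊤) : Algebra.adjoin A {z ^ p} = ⊤ := by
  let S : Subalgebra A B := Algebra.adjoin A {z ^ p}
  have hfin : Module.Finite S B := Module.Finite.of_restrictScalars_finite A S B
  have hunr : Algebra.FormallyUnramified S B := Algebra.FormallyUnramified.of_restrictScalars A S B
  have hp : ∀ b : B, b ^ p ∈ S := pow_mem_adjoin p z hz
  have hepi : Algebra.IsEpi S B := by
    rw [Algebra.isEpi_iff_forall_one_tmul_eq]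
    rcases subsingleton_or_nontrivial (B ⊗[S] B) with h | h
    · exact fun a => Subsingleton.elim _ _
    have hchar : CharP (B ⊗[S] B) p := by
      rw [CharP.charP_iff_prime_eq_zero (Fact.out : p.Prime)]
      have h1 : ((p : ℕ) : B ⊗[S] B) = algebraMap B (B ⊗[S] B) (p : B) := (map_natCast _ p).symm
      rw [h1, CharP.cast_eq_zero, map_zero]
    have hnil : ∀ b : B, IsNilpotent ((1 : B) ⊗ₜ[S] b - b ⊗ₜ[S] (1 : B)) := by
      intro b
      refine ⟨p, ?_⟩
      rw [sub_pow_char, Algebra.TensorProduct.tmul_pow, Algebra.TensorProduct.tmul_pow, one_pow]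
      have h2 : b ^ p = algebraMap S B ⟨b ^ p, hp b⟩ := rfl
      rw [h2, Algebra.algebraMap_eq_smul_one, TensorProduct.smul_tmul, sub_self]
    obtain ⟨t, ht1, ht2⟩ := Algebra.FormallyUnramified.iff_exists_tensorProduct.mp hunr
    have hker : (1 : B ⊗[S] B) - t ∈ KaehlerDifferential.ideal S B := by
      rw [KaehlerDifferential.ideal, RingHom.mem_ker, map_sub, map_one]
      exact sub_eq_zero.mpr ht2.symm
    have hle : KaehlerDifferential.ideal S B ≤ nilradical (B ⊗[S] B) := by
      rw [← KaehlerDifferential.span_range_eq_ideal, Ideal.span_le]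
      rintro _ ⟨b, rfl⟩
      exact hnil b
    have hn : IsNilpotent ((1 : B ⊗[S] B) - t) := hle hker
    have hu : IsUnit t := by
      have := hn.isUnit_one_sub
      rwa [sub_sub_cancel] at this
    intro b
    have h3 := ht1 b
    rw [hu.mul_left_eq_zero] at h3
    exact sub_eq_zero.mp h3
  have hs := Algebra.isEpi_iff_surjective_algebraMap_of_finite.mp hepi
  rw [eq_top_iff]
  intro b _
  obtain ⟨s, rfl⟩ := hs b
  exact s.2

theorem monic_add_pow (p : ℕ) [Fact p.Prime] {A : Type} [CommRing A] [Nontrivial A] {g : A[X]}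
    (hg : g.Monic) : (X + g ^ p : A[X]).Monic := by
  have hp := (Fact.out : p.Prime).two_le
  rcases Nat.eq_zero_or_pos g.natDegree with h0 | h0
  · rw [hg.natDegree_eq_zero.mp h0, one_pow]
    exact monic_X_add_C 1
  · refine (hg.pow p).add_of_right ?_
    rw [degree_X, degree_eq_natDegree (hg.pow p).ne_zero, hg.natDegree_pow]
    have h1 : 1 < p * g.natDegree := by nlinarith
    exact_mod_cast h1

theorem derivative_add_pow (p : ℕ) {A : Type} [CommRing A] [CharP A p] (g : A[X]) :
    (X + g ^ p : A[X]).derivative = 1 := by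
  rw [derivative_add, derivative_X, derivative_pow]
  have h1 : (C (p : A) : A[X]) = 0 := by rw [CharP.cast_eq_zero, C_0]
  rw [h1]
  simp

/-- A finite unramified algebra in characteristic `p` that is generated by one element has a
generator `u` with `u + g(u) ^ p = 0` for a monic polynomial `g`. -/
theorem exists_poly (p : ℕ) [Fact p.Prime] {A B : Type} [CommRing A] [CommRing B] [Algebra A B]
    [CharP A p] [CharP B p] [Module.Finite A B] [Algebra.FormallyUnramified A B] (z : B)
    (hz : Algebra.adjoin A {z} = ⊤) :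
    ∃ (u : B) (g : A[X]), Algebra.adjoin A {u} = ⊤ ∧ g.Monic ∧ aeval u (X + g ^ p) = 0 := by
  have hnt : Nontrivial A := CharP.nontrivial_of_char_ne_one (v := p) (Fact.out : p.Prime).ne_one
  have h1 : z ∈ Algebra.adjoin A {z ^ p} := by
    rw [adjoin_pow p z hz]
    trivial
  rw [Algebra.adjoin_singleton_eq_range_aeval] at h1
  obtain ⟨g, hg⟩ := h1
  have hg' : aeval (z ^ p) g = z := hg
  obtain ⟨q, hq, hqz⟩ : IsIntegral A (z ^ p) := Algebra.IsIntegral.isIntegral _
  have hqz' : aeval (z ^ p) q = 0 := hqz
  let m := g.natDegree + 1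
  let G : A[X] := X ^ m * q - g
  have hG0 : g.degree < (X ^ m * q : A[X]).degree := by
    rw [hq.degree_mul, degree_X_pow]
    refine lt_of_le_of_lt degree_le_natDegree ?_
    have h2 : (g.natDegree : WithBot ℕ) < ((m : ℕ) : WithBot ℕ) := by
      exact_mod_cast Nat.lt_succ_self _
    refine h2.trans_le ?_
    have h3 : (0 : WithBot ℕ) ≤ q.degree := by
      rw [zero_le_degree_iff]
      exact hq.ne_zero
    calc ((m : ℕ) : WithBot ℕ) = 0 + m := (zero_add _).symm
      _ ≤ q.degree + m := add_le_add h3 le_rfl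
      _ = m + q.degree := add_comm _ _
  have hG : G.Monic := ((monic_X_pow m).mul hq).sub_of_left hG0
  have hGz : aeval (z ^ p) G = -z := by
    simp only [G, map_sub, map_mul, hqz', mul_zero, hg', zero_sub]
  refine ⟨z ^ p, G, adjoin_pow p z hz, hG, ?_⟩
  rw [map_add, map_pow, hGz, aeval_X]
  have h4 : ((-1 : B)) ^ p = -1 := by
    have h5 := add_pow_char (R := B) (p := p) 1 (-1)
    rw [add_neg_cancel, one_pow, zero_pow (Fact.out : p.Prime).ne_zero] at h5
    linear_combination -h5
  rw [neg_pow z p, h4]
  ring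

end Pool.Agent.H854.HF
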