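import Pool.Agent.H854.HF.Frob

set_option autoImplicit false
set_option maxHeartbeats 1000000

/-!
# Generators of localizations of finite étale algebras
-/

open Polynomial

namespace Pool.Agent.H854.HF

/-- A finite étale domain over a domain is generically generated by one element. -/
theorem exists_generic_generator (A B : Type) [CommRing A] [IsDomain A] [CommRing B] [IsDomain B]
    [Algebra A B] [Module.Finite A B] [Algebra.Etale A B] :
    ∃ (b : B) (h : A), h ≠ 0 ∧ ∀ c : B, h • c ∈ Algebra.adjoin A {b} := by
  classical
  let K := FractionRing A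
  let L := FractionRing B
  have hAB : FaithfulSMul A B := by
    rw [faithfulSMul_iff_algebraMap_injective, injective_iff_map_eq_zero]
    intro a ha
    by_contra h0
    have h1 : a • (1 : B) = 0 := by rw [Algebra.smul_def, ha, zero_mul]
    exact one_ne_zero ((smul_eq_zero.mp h1).resolve_left h0)
  have hAL : FaithfulSMul A L := by
    rw [faithfulSMul_iff_algebraMap_injective, IsScalarTower.algebraMap_eq A B L]
    exact (IsFractionRing.injective B L).comp (FaithfulSMul.algebraMap_injective A B)
  let _ : Algebra K L := FractionRing.liftAlgebra A L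
  have hs : IsScalarTower A K L := FractionRing.isScalarTower_liftAlgebra A L
  have h1 : Algebra.EssFiniteType B L := Algebra.EssFiniteType.of_isLocalization L (nonZeroDivisors B)
  have h2 : Algebra.EssFiniteType A L := Algebra.EssFiniteType.comp A B L
  have h3 : Algebra.EssFiniteType K L := Algebra.EssFiniteType.of_comp A K L
  have h4 : Algebra.FormallyUnramified B L :=
    Algebra.FormallyUnramified.of_isLocalization (nonZeroDivisors B)
  have h5 : Algebra.FormallyUnramified A L := Algebra.FormallyUnramified.comp A B L
  have h6 : Algebra.FormallyUnramified K L := Algebra.FormallyUnramified.of_restrictScalars A K L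
  have h7 : Module.Finite K L := Algebra.FormallyUnramified.finite_of_free (R := K) (S := L)
  have h8 : Algebra.IsSeparable K L := Algebra.FormallyUnramified.isSeparable K L
  obtain ⟨α, hα⟩ := Field.exists_primitive_element K L
  obtain ⟨s, t, ht, hst⟩ := IsFractionRing.div_surjective (A := B) α
  have ht0 : t ≠ 0 := nonZeroDivisors.ne_zero ht
  have h9 : (Ideal.span {t}).comap (algebraMap A B) ≠ ⊥ :=
    Ideal.comap_ne_bot_of_integral_mem ht0 (Ideal.mem_span_singleton_self t)
      (Algebra.IsIntegral.isIntegral t)
  obtain ⟨a, ha, ha0⟩ := Submodule.exists_mem_ne_zero_of_ne_bot h9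
  obtain ⟨t', ht'⟩ := Ideal.mem_span_singleton'.mp (Ideal.mem_comap.mp ha)
  let b : B := s * t'
  have hb : IntermediateField.adjoin K {algebraMap B L b} = ⊤ := by
    rw [eq_top_iff, ← hα, IntermediateField.adjoin_simple_le_iff]
    have h10 : α = algebraMap B L b * (algebraMap A L a)⁻¹ := by
      rw [← hst, IsScalarTower.algebraMap_apply A B L, ← ht']
      have h11 : algebraMap B L t ≠ 0 := fun h => ht0 (IsFractionRing.injective B L (by rw [h, map_zero]))
      have h12 : algebraMap B L (t' * t) ≠ 0 := by
        rw [ht', ← IsScalarTower.algebraMap_apply A B L]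
        exact fun h => ha0 ((FaithfulSMul.algebraMap_injective A L) (by rw [h, map_zero]))
      rw [eq_mul_inv_iff_mul_eq₀ h12]
      simp only [b, map_mul]
      rw [div_mul_eq_mul_div, div_eq_iff h11]
      ring
    rw [h10]
    refine mul_mem (IntermediateField.mem_adjoin_simple_self K _) (inv_mem ?_)
    rw [IsScalarTower.algebraMap_apply A K L]
    exact IntermediateField.algebraMap_mem _ _
  have key : ∀ c : B, ∃ h : A, h ≠ 0 ∧ h • c ∈ Algebra.adjoin A {b} := by
    intro c
    have h13 : algebraMap B L c ∈ (IntermediateField.adjoin K {algebraMap B L b}).toSubalgebra := by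
      rw [hb]
      trivial
    rw [IntermediateField.adjoin_simple_toSubalgebra_of_isAlgebraic
      (Algebra.IsAlgebraic.isAlgebraic _), Algebra.adjoin_singleton_eq_range_aeval] at h13
    obtain ⟨P, hP⟩ := h13
    obtain ⟨d, hdm, hd⟩ := IsLocalization.integerNormalization_spec (nonZeroDivisors A) P
    refine ⟨d, nonZeroDivisors.ne_zero hdm, ?_⟩
    have h14 : algebraMap B L (d • c) =
        algebraMap B L (aeval b (IsLocalization.integerNormalization (nonZeroDivisors A) P)) := by
      have h15 : aeval (algebraMap B L b) P = algebraMap B L c := hP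
      rw [← aeval_algebraMap_apply, ← aeval_map_algebraMap K, hd, Algebra.smul_def, map_mul,
        ← IsScalarTower.algebraMap_apply, Algebra.smul_def d P, map_mul, h15,
        Polynomial.algebraMap_apply, aeval_C, ← IsScalarTower.algebraMap_apply A K L]
    rw [IsFractionRing.injective B L h14, Algebra.adjoin_singleton_eq_range_aeval]
    exact ⟨_, rfl⟩
  choose g hg0 hg using key
  obtain ⟨S, hS⟩ := (Module.Finite.fg_top : (⊤ : Submodule A B).FG)
  refine ⟨b, ∏ c ∈ S, g c, Finset.prod_ne_zero_iff.mpr fun c _ => hg0 c, fun c => ?_⟩
  have hc : c ∈ Submodule.span A (S : Set B) := hS ▸ trivial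
  induction hc using Submodule.span_induction with
  | mem x hx =>
    rw [← Finset.prod_erase_mul S g hx, mul_smul]
    exact Subalgebra.smul_mem _ (hg x) _
  | zero =>
    rw [smul_zero]
    exact zero_mem _
  | add x y _ _ hx hy =>
    rw [smul_add]
    exact add_mem hx hy
  | smul r x _ hx =>
    rw [smul_comm]
    exact Subalgebra.smul_mem _ hx _

/-- If the inverse of `r` is integral over `R`, then it comes from `R`. -/
theorem mem_of_inv_integral {R C : Type} [CommRing R] [CommRing C] [Algebra R C] (r : R) (u : C)
    (hu : IsIntegral R u) (h : algebraMap R C r * u = 1) : ∃ s, algebraMap R C s = u := by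
  obtain ⟨P, hP, hPu⟩ := hu
  let _ : Invertible u := ⟨algebraMap R C r, h, (mul_comm _ _).trans h⟩
  have h1 : eval₂ (algebraMap R C) (⅟u) P.reverse = 0 :=
    (eval₂_reverse_eq_zero_iff (algebraMap R C) u P).mpr hPu
  have h2 : ⅟u = algebraMap R C r := rfl
  rw [h2, ← Polynomial.divX_mul_X_add P.reverse, coeff_zero_reverse, hP.leadingCoeff, eval₂_add,
    eval₂_mul, eval₂_X, eval₂_C, map_one] at h1
  refine ⟨-eval r P.reverse.divX, ?_⟩
  have h3 : eval₂ (algebraMap R C) (algebraMap R C r) P.reverse.divX =
      algebraMap R C (eval r P.reverse.divX) := eval₂_at_apply _ _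
  rw [map_neg, ← h3]
  have h4 := congrArg (· * u) h1
  simp only [add_mul, mul_assoc, h, mul_one, one_mul, zero_mul] at h4
  linear_combination -h4

/-- The localization of a finite étale domain at a suitable element of the base is generated by one
element. -/
theorem exists_generator (A B : Type) [CommRing A] [IsDomain A] [CommRing B] [IsDomain B]
    [Algebra A B] [Module.Finite A B] [Algebra.Etale A B] :
    ∃ (h : A) (z : Localization.Away (algebraMap A B h)), h ≠ 0 ∧
      Algebra.adjoin A {z} = ⊤ := by
  obtain ⟨b, h, h0, hb⟩ := exists_generic_generator A B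
  let C := Localization.Away (algebraMap A B h)
  let u : C := IsLocalization.Away.invSelf (algebraMap A B h)
  have hu : algebraMap A C h * u = 1 := by
    rw [IsScalarTower.algebraMap_apply A B C]
    exact IsLocalization.Away.mul_invSelf _
  let z : C := algebraMap B C b + u
  refine ⟨h, z, h0, ?_⟩
  let S : Subalgebra A C := Algebra.adjoin A {z}
  have hz : z ∈ S := Algebra.subset_adjoin rfl
  have hui : IsIntegral S u := by
    have h1 : u = algebraMap S C ⟨z, hz⟩ - algebraMap B C b := by
      change u = z - algebraMap B C b
      simp [z]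
    rw [h1]
    refine isIntegral_algebraMap.sub ?_
    have h2 : IsIntegral A (algebraMap B C b) :=
      (Algebra.IsIntegral.isIntegral b).algebraMap
    exact h2.tower_top
  have huS : u ∈ S := by
    obtain ⟨s, hs⟩ := mem_of_inv_integral (algebraMap A S h) u hui
      (by rw [← IsScalarTower.algebraMap_apply A S C]; exact hu)
    rw [← hs]
    exact s.2
  have hbS : algebraMap B C b ∈ S := by
    have : algebraMap B C b = z - u := by simp [z]
    rw [this]
    exact sub_mem hz huS
  have hcS : ∀ c : B, algebraMap B C c ∈ S := by
    intro c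
    have h3 : algebraMap B C (h • c) ∈ S := by
      have h4 : Algebra.adjoin A {b} ≤ S.comap (IsScalarTower.toAlgHom A B C) := by
        rw [Algebra.adjoin_le_iff, Set.singleton_subset_iff]
        exact hbS
      exact h4 (hb c)
    have h5 : algebraMap B C c = u * algebraMap B C (h • c) := by
      rw [Algebra.smul_def, map_mul, ← IsScalarTower.algebraMap_apply A B C, ← mul_assoc,
        mul_comm u, hu, one_mul]
    rw [h5]
    exact mul_mem huS h3
  rw [eq_top_iff]
  intro c _
  obtain ⟨n, a, hc⟩ := IsLocalization.Away.surj (algebraMap A B h) c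
  have h6 : c = algebraMap B C a * u ^ n := by
    rw [← hc, mul_assoc, ← IsScalarTower.algebraMap_apply A B C, ← mul_pow, hu, one_pow, mul_one]
  rw [h6]
  exact mul_mem (hcS a) (pow_mem huS n)

end Pool.Agent.H854.HF
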