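import Pool.Agent.H854.HF.Form
import Pool.Agent.H854.HF.Defs
import Pool.Agent.H854.FE.Main

set_option autoImplicit false
set_option maxHeartbeats 1000000

/-!
# Open subsets of smooth varieties as hypersurfaces
-/

open CategoryTheory Limits AlgebraicGeometry Polynomial

namespace Pool.Agent.H854.HF

open Pool.Agent.H854.FE

/-- The projection `(x, z) ↦ x` of the hypersurface to the affine space. -/
noncomputable abbrev hypProj (k : Type) [Field k] (n : ℕ) (F : (MvPolynomial (Fin n) k)[X]) :
    hyp k n F ⟶ affSp k n :=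
  Spec.map (CommRingCat.ofHom (algebraMap (MvPolynomial (Fin n) k) (AdjoinRoot F)))

theorem hypProj_str (k : Type) [Field k] (n : ℕ) (F : (MvPolynomial (Fin n) k)[X]) :
    hypProj k n F ≫ affStr k n = hypStr k n F := by
  rw [← Spec.map_comp, ← CommRingCat.ofHom_comp]
  rfl

/-- The hypersurface `F = 0` is étale over the affine space if `F` is monic in `z` and `F` and
`∂F/∂z` generate the unit ideal. -/
theorem etale_adjoinRoot {A : Type} [CommRing A] (F : A[X]) (hF : F.Monic)
    (h : IsCoprime F F.derivative) : Algebra.Etale A (AdjoinRoot F) := by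
  obtain ⟨a, b, hab⟩ := h
  let P : StandardEtalePair A := ⟨F, hF, 1, b, a, 1, by rw [pow_one, ← hab]; ring⟩
  have h1 : IsUnit (AdjoinRoot.mk P.f P.g) := by
    change IsUnit (AdjoinRoot.mk F 1)
    rw [map_one]
    exact isUnit_one
  let e : AdjoinRoot F ≃ₐ[A] P.Ring :=
    ((IsLocalization.atUnit (AdjoinRoot F) (Localization.Away (AdjoinRoot.mk P.f P.g))
      (AdjoinRoot.mk P.f P.g) h1).restrictScalars A).trans P.equivAwayAdjoinRoot.symm
  exact Algebra.Etale.of_equiv e.symm

theorem isCoprime_of_dvd {A : Type} [CommRing A] {F P : A[X]} (hF : F.derivative = 1)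
    (h : P ∣ F) : IsCoprime P P.derivative := by
  obtain ⟨Q, rfl⟩ := h
  rw [derivative_mul] at hF
  exact ⟨Q.derivative, Q, by rw [← hF]; ring⟩

theorem isDomain_adjoinRoot {A : Type} [CommRing A] [IsDomain A] [UniqueFactorizationMonoid A]
    {P : A[X]} (h : Irreducible P) : IsDomain (AdjoinRoot P) :=
  AdjoinRoot.isDomain_of_prime h.prime

theorem isIntegral_hyp (k : Type) [Field k] (n : ℕ) {P : (MvPolynomial (Fin n) k)[X]}
    (h : Irreducible P) : IsIntegral (hyp k n P) := by
  have := isDomain_adjoinRoot h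
  infer_instance

theorem isVar_hyp (k : Type) [Field k] (n : ℕ) {P : (MvPolynomial (Fin n) k)[X]}
    (hP : P.Monic) (h : Irreducible P) (hd : IsCoprime P P.derivative) :
    IsVar n (hypStr k n P) := by
  have h1 := isIntegral_hyp k n h
  have h2 : Etale (hypProj k n P) := by
    rw [HasRingHomProperty.Spec_iff (P := @Etale)]
    exact (RingHom.etale_algebraMap).mpr (etale_adjoinRoot P hP hd)
  have h3 : IsFinite (hypProj k n P) := by
    rw [IsFinite.SpecMap_iff]
    have h4 : Module.Finite (MvPolynomial (Fin n) k) (AdjoinRoot P) := hP.finite_adjoinRoot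
    exact (RingHom.finite_algebraMap).mpr h4
  have h5 := isVar_cover n (hypProj k n P)
  rwa [hypProj_str] at h5

/-- Every smooth variety over a field of characteristic `p` has a non-empty open subset that is
isomorphic to a hypersurface `P(x,z) = 0`, where `P` is an irreducible factor, monic in `z`, of
`z + g(x,z) ^ p` for a polynomial `g`, monic in `z`. -/
theorem exists_hypersurface (p : ℕ) [Fact p.Prime] (n : ℕ) (k : Type) [Field k] [CharP k p]
    (X : Scheme.{0}) [IsIntegral X] (f : X ⟶ Spec (.of k)) [SmoothOfRelativeDimension n f] :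
    ∃ (g P : (MvPolynomial (Fin n) k)[X]) (j : hyp k n P ⟶ X), g.Monic ∧ P.Monic ∧
      Irreducible P ∧ P ∣ Polynomial.X + g ^ p ∧ IsOpenImmersion j ∧ j ≫ f = hypStr k n P := by
  obtain ⟨U, hU, V, hV, hx, e, hf⟩ :=
    SmoothOfRelativeDimension.exists_isStandardSmoothOfRelativeDimension (n := n) (f := f)
      (genericPoint X)
  have hUtop : U = ⊤ := by
    have : Subsingleton (Spec (.of k)) := inferInstanceAs (Subsingleton (PrimeSpectrum k))
    ext y
    simp only [TopologicalSpace.Opens.coe_top, Set.mem_univ, iff_true]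
    have h1 : f (genericPoint X) ∈ U := e hx
    rw [Subsingleton.elim y (f (genericPoint X))]
    exact h1
  subst hUtop
  have hVn : Nonempty V := ⟨⟨_, hx⟩⟩
  let c : k ≃+* Γ(Spec (.of k), ⊤) :=
    (Scheme.ΓSpecIso (.of k)).symm.commRingCatIsoToRingEquiv
  have h3 := hf.comp (RingHom.IsStandardSmoothOfRelativeDimension.equiv c)
  rw [add_zero] at h3
  obtain ⟨g, hg1, hg⟩ := h3.exists_etale_mvPolynomial
  let a1 : Algebra k Γ(X, V) := (g.comp MvPolynomial.C).toAlgebra
  let g' : MvPolynomial (Fin n) k →ₐ[k] Γ(X, V) := { g with commutes' := fun r => rfl }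
  have hg' : g'.toRingHom.Etale := hg
  obtain ⟨h, g₀, P, h0, hg₀, hP1, hP2, hPF, ⟨ε⟩⟩ := exists_polys k p g' hg'
  let φ₁ : Γ(X, V) →+* Localization.Away h := algebraMap _ _
  let φ₂ : Localization.Away h →+* AdjoinRoot P := ε.symm.toRingEquiv.toRingHom
  have hcomp : (φ₂.comp φ₁).comp (g.comp MvPolynomial.C) = algebraMap k (AdjoinRoot P) := by
    ext r
    have h1 : φ₁ (algebraMap k Γ(X, V) r) = algebraMap k (Localization.Away h) r :=
      (IsScalarTower.algebraMap_apply k Γ(X, V) (Localization.Away h) r).symm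
    have h2 : ε.symm (algebraMap k (Localization.Away h) r) = algebraMap k (AdjoinRoot P) r :=
      ε.symm.commutes r
    change ε.symm (φ₁ (algebraMap k Γ(X, V) r)) = _
    rw [h1, h2]
  refine ⟨g₀, P, Spec.map (CommRingCat.ofHom φ₂) ≫ Spec.map (CommRingCat.ofHom φ₁) ≫ hV.fromSpec,
    hg₀, hP1, hP2, hPF, ?_, ?_⟩
  · have h1 : IsIso (CommRingCat.ofHom φ₂) :=
      (ε.symm.toRingEquiv.toCommRingCatIso).isIso_hom
    have h2 : IsOpenImmersion (Spec.map (CommRingCat.ofHom φ₁)) :=
      Scheme.isOpenImmersion_SpecMap_localizationAway (R := .of Γ(X, V)) h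
    infer_instance
  · have h5 := (isAffineOpen_top (Spec (.of k))).SpecMap_appLE_fromSpec f hV e
    rw [IsAffineOpen.fromSpec_top, Scheme.isoSpec_Spec_inv] at h5
    have h6 : Spec.map (CommRingCat.ofHom ((f.appLE ⊤ V e).hom.comp (c : k →+* _))) =
      Spec.map (f.appLE ⊤ V e) ≫ Spec.map (Scheme.ΓSpecIso (.of k)).inv := by
      rw [← Spec.map_comp]
      rfl
    rw [Category.assoc, Category.assoc, ← h5, ← h6, ← Spec.map_comp, ← Spec.map_comp,
      ← CommRingCat.ofHom_comp, ← CommRingCat.ofHom_comp, ← hg1, ← RingHom.comp_assoc, hcomp]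

end Pool.Agent.H854.HF
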