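import Pool.Agent.H854.HF.Hyp

set_option autoImplicit false
set_option maxHeartbeats 1000000

/-!
# Finite étale coverings of affine space and hypersurfaces `z + g(x,z) ^ p = 0`
-/

open CategoryTheory Limits AlgebraicGeometry

namespace Pool.Agent.H854.HF

open Pool.Agent.H854.FE

section image
variable {ℓ : ℕ} [Fact ℓ.Prime] {K : Type} [Field K] {X Y : Scheme.{0}} {f : X ⟶ Spec (.of K)}

/-- A class that vanishes on an open subset of `Y` vanishes on its image under an open immersion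
`Y ⟶ X`. -/
theorem res_image_open (j : Y ⟶ X) [IsOpenImmersion j] {g : Y ⟶ Spec (.of K)} (e : j ≫ f = g)
    (W : Y.Opens) {i : ℕ} {v : HH ℓ f i} (hv : resO g W i (restr j e i v) = 0) :
    resO f (j ''ᵁ W) i v = 0 := by
  subst e
  let V : X.Opens := j ''ᵁ W
  have hr : Set.range V.ι ⊆ Set.range (W.ι ≫ j) := by
    intro x hx
    rw [Scheme.Opens.range_ι] at hx
    obtain ⟨y, hy, rfl⟩ := hx
    exact ⟨⟨y, hy⟩, rfl⟩
  let t : (V : Scheme.{0}) ⟶ (W : Scheme.{0}) := IsOpenImmersion.lift (W.ι ≫ j) V.ι hr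
  have ht : t ≫ (W.ι ≫ j) = V.ι := IsOpenImmersion.lift_fac _ _ _
  have h0 : IsOpenImmersion (t ≫ (W.ι ≫ j)) := by
    rw [ht]
    infer_instance
  have h1 : IsOpenImmersion t := IsOpenImmersion.of_comp t (W.ι ≫ j)
  have e1 : (W.ι ≫ j) ≫ f = W.ι ≫ (j ≫ f) := Category.assoc _ _ _
  have e2 : t ≫ (W.ι ≫ (j ≫ f)) = V.ι ≫ f := by
    rw [← e1, ← Category.assoc, ht]
  have h2 := restr_comp (ℓ := ℓ) (W.ι ≫ j) e1 t e2 V.ι rfl ht.symm i v
  have h3 := restr_comp (ℓ := ℓ) j (rfl : j ≫ f = j ≫ f) W.ι rfl (W.ι ≫ j) e1 rfl i v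
  have h4 : restr W.ι (rfl : W.ι ≫ (j ≫ f) = W.ι ≫ (j ≫ f)) i
    (restr j (rfl : j ≫ f = j ≫ f) i v) = 0 := hv
  rw [h4] at h3
  rw [h3, map_zero] at h2
  exact h2

end image

theorem IsComponent.isVar {p : ℕ} {k : Type} [Field k] [CharP k p] {n : ℕ}
    {P : Polynomial (MvPolynomial (Fin n) k)} (h : IsComponent p P) :
    IsVar n (hypStr k n P) := by
  obtain ⟨g, -, hg⟩ := h.dvd
  have h1 : CharP (MvPolynomial (Fin n) k) p :=
    charP_of_injective_algebraMap (MvPolynomial.C_injective (Fin n) k) p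
  exact isVar_hyp k n h.monic h.irreducible
    (isCoprime_of_dvd (derivative_add_pow p g) hg)

/-- The normal form of varieties in characteristic `p`. -/
theorem exists_component (p : ℕ) [Fact p.Prime] {k : Type} [Field k] [CharP k p] {n : ℕ}
    {X : Scheme.{0}} (f : X ⟶ Spec (.of k)) [hf : IsVar n f] :
    ∃ P : Polynomial (MvPolynomial (Fin n) k), IsComponent p P ∧ HasOpenSubset f P := by
  have hint := hf.integral
  have hsm := hf.smooth
  obtain ⟨g, P, j, hg, hP1, hP2, hPg, hj, hjf⟩ := exists_hypersurface p n k X f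
  refine ⟨P, ⟨hP1, hP2, g, hg, hPg⟩, j.opensRange, j.isoOpensRange.symm, ?_, ?_⟩
  · have h1 := isIntegral_hyp k n hP2
    obtain ⟨x⟩ : Nonempty (hyp k n P) := inferInstance
    exact ⟨⟨j x, x, rfl⟩⟩
  · rw [← hjf, ← Category.assoc]
    congr 1
    exact (Iso.inv_comp_eq _).mpr (j.isoOpensRange_hom_ι).symm

section main
variable {p ℓ : ℕ} [Fact p.Prime] [Fact ℓ.Prime]

/-- If the Tate classes of the hypersurface found in `X` vanish on non-empty open subsets, then so
do the Tate classes of `X`. -/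
theorem vanishing_of_hyp {k : Type} [Field k] [CharP k p] {n i : ℕ}
    (h : HypVanishing p ℓ k n i) {X : Scheme.{0}} (f : X ⟶ Spec (.of k)) [hf : IsVar n f] :
    GenericVanishing ℓ f i := by
  intro v hv
  have hint := hf.integral
  have hsm := hf.smooth
  obtain ⟨g, P, j, hg, hP1, hP2, hPg, hj, hjf⟩ := exists_hypersurface p n k X f
  obtain ⟨W, hW, hWv⟩ := h P ⟨hP1, hP2, g, hg, hPg⟩ (restr j hjf i v) (fun σ => by
    rw [← restr_tw, hv σ])
  refine ⟨j ''ᵁ W, ?_, res_image_open j hjf W hWv⟩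
  obtain ⟨w⟩ := hW
  exact ⟨⟨_, w.1, w.2, rfl⟩⟩

/-- The integral finite étale coverings of affine spaces may be replaced by the hypersurfaces. -/
theorem coverVanishing_iff (i : ℕ) :
    CoverVanishing p ℓ i ↔ ∀ r, HypVanishing p ℓ (RatField p r) (2 * i) i := by
  constructor
  · intro h r P hP
    have hc := charP_ratField p r
    have hv := hP.isVar
    have h1 := isIntegral_hyp (RatField p r) (2 * i) hP.irreducible
    obtain ⟨g, -, hg⟩ := hP.dvd
    have h2 : CharP (MvPolynomial (Fin (2 * i)) (RatField p r)) p :=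
      charP_of_injective_algebraMap (MvPolynomial.C_injective _ _) p
    have hd := isCoprime_of_dvd (derivative_add_pow p g) hg
    have h3 : Etale (hypProj (RatField p r) (2 * i) P) := by
      rw [HasRingHomProperty.Spec_iff (P := @Etale)]
      exact (RingHom.etale_algebraMap).mpr (etale_adjoinRoot P hP.monic hd)
    have h4 : IsFinite (hypProj (RatField p r) (2 * i) P) := by
      rw [IsFinite.SpecMap_iff]
      have h5 : Module.Finite (MvPolynomial (Fin (2 * i)) (RatField p r)) (AdjoinRoot P) :=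
        hP.monic.finite_adjoinRoot
      exact (RingHom.finite_algebraMap).mpr h5
    have h6 := h r (hyp (RatField p r) (2 * i) P) (hypProj (RatField p r) (2 * i) P)
    rwa [hypProj_str] at h6
  · intro h r U g _ _ _
    have hc := charP_ratField p r
    have hv := isVar_cover (2 * i) g
    exact vanishing_of_hyp (h r) _

/-- The reduction of the conjectures `T^i` to the hypersurfaces. -/
theorem main_hyp (F : KnownFacts p ℓ) (N : ℕ) :
    (∀ i, 1 ≤ i → i ≤ N → ∀ r, HypVanishing p ℓ (RatField p r) (2 * i) i) ↔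
      ∀ i, 1 ≤ i → i ≤ N → TateAll p ℓ i ∧ SemisimpleAll p ℓ i := by
  simp only [← coverVanishing_iff]
  refine ⟨fun h i hi hN => ?_, fun h => (main F N).mp fun i hi hN => (h i hi hN).1⟩
  have h1 := (main F N).mpr h i hi hN
  exact ⟨h1, fun K _ _ X f n _ hK =>
    socle F.toBasicFacts hi n (fun X f _ => h1 n K X f hK) f hK⟩

end main

end Pool.Agent.H854.HF
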